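import Pool.Agent.helper29.RS.SpecK
import Pool.Agent.helper62.QU.All

/-!
# Row NM2 of project RS: frame bounds
-/

set_option autoImplicit false

open scoped MatrixGroups ContDiff Topology UpperHalfPlane ComplexConjugate
open UpperHalfPlane MeasureTheory Filter Set

namespace Pool.Agent.RS

theorem NM2_TB (w w' : ℝ) (h : w ≤ w') (c : ℍ → ℂ) (hc : TB w c) : TB w' c :=
  ⟨hc.1, fun z hz => ⟨le_trans (hc.2 z hz).1 h, le_trans (hc.2 z hz).2 h⟩⟩

theorem NM2_SB (w w' : ℝ) (h : w ≤ w') (a : ℝ → ℝ) (ha : SB w a) : SB w' a :=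
  ⟨ha.1, fun x hx => le_trans (ha.2 x hx) h⟩

theorem NM2_cs (w : ℝ) (a : ℝ → ℝ) (ha : SB w a) : Integrable fun x => a x ^ 2 := by
  apply Continuous.integrable_of_hasCompactSupport (ha.1.continuous.pow 2)
  apply HasCompactSupport.intro (isCompact_Icc (a := -w) (b := w))
  intro x hx
  by_contra h
  have h1 : a x ≠ 0 := by
    intro h2
    apply h
    show a x ^ 2 = 0
    rw [h2]
    norm_num
  exact hx (abs_le.1 (ha.2 x h1))

theorem NM2_sq (w : ℝ) (β : ℝ → ℝ) (hβ : SB w β) (hβ' : SB w fun x => x * β x) :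
    ∫ x : ℝ, (x * β x) ^ 2 ≤ w ^ 2 * ∫ x : ℝ, β x ^ 2 := by
  rw [← integral_const_mul]
  apply integral_mono (NM2_cs w _ hβ') ((NM2_cs w β hβ).const_mul _)
  intro x
  simp only []
  rw [mul_pow]
  by_cases h : β x = 0
  · rw [h]
    simp
  · have h1 := hβ.2 x h
    have h2 : x ^ 2 ≤ w ^ 2 := sq_le_sq' (abs_le.1 h1).1 (abs_le.1 h1).2
    exact mul_le_mul_of_nonneg_right h2 (sq_nonneg _)

theorem NM2_le (a r b : ℝ) (hr : 0 < r) (h : r * a ≤ b) : a ≤ b / r := by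
  rw [le_div_iff₀ hr]
  linarith

theorem NM2 (hALH : ALH_stmt) (hBK5 : BK5_stmt) (hCV1 : CV1_stmt) (hFL0 : FL0_stmt)
    (hGR2 : GR2_stmt) (hEF1 : EF1_stmt) (hNR5 : NR5_stmt) : NM2_stmt := by
  intro Γ F w α β hΓ hFd hw hw4 hα hβ hα0 hαi hβi η hη
  obtain ⟨hcT, hcc, hxm, hβ'⟩ := hCV1.2.2 w α β hα hβ
  obtain ⟨hcT', hcc', -, -⟩ := hCV1.2.2 w α (fun x => x * β x) hα hβ'
  have hT : TB (1 / 4) (pc β α) := NM2_TB w _ hw4 _ hcT
  have hT' : TB (1 / 4) (pc (fun x => x * β x) α) := NM2_TB w _ hw4 _ hcT'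
  have hα4 := NM2_SB w (1 / 4) hw4 α hα
  have hβ4 := NM2_SB w (1 / 4) hw4 β hβ
  have hβ4' := NM2_SB w (1 / 4) hw4 _ hβ'
  obtain ⟨hA1, hA2⟩ := hALH w α hw (by linarith) hα hα0
  have hsq := NM2_sq w β hβ hβ'
  generalize hia : ∫ x : ℝ, α x = ia at hαi hA1 hA2
  generalize hib : ∫ x : ℝ, β x ^ 2 = ib at hβi hsq
  generalize hix : ∫ x : ℝ, (x * β x) ^ 2 = ix at hsq
  have hA0 : 0 < ia ^ 2 * ib := by positivity
  obtain ⟨K, hK, hEF⟩ := hEF1 (pc β α) hT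
  -- the parameter R0
  obtain ⟨R0, hR1, hR0⟩ : ∃ R0 : ℝ, 1 ≤ R0 ∧ K / R0 ^ 2 ≤ ia ^ 2 * ib := by
    refine ⟨max 1 (K / (ia ^ 2 * ib)), le_max_left _ _, ?_⟩
    have h1 : (1 : ℝ) ≤ max 1 (K / (ia ^ 2 * ib)) := le_max_left _ _
    have h2 : K / (ia ^ 2 * ib) ≤ max 1 (K / (ia ^ 2 * ib)) := le_max_right _ _
    rw [div_le_iff₀ (by positivity)]
    rw [div_le_iff₀ hA0] at h2
    have h3 : max 1 (K / (ia ^ 2 * ib)) ≤ max 1 (K / (ia ^ 2 * ib)) ^ 2 := by nlinarith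
    nlinarith
  have hη1 : 0 < η * (ia ^ 2 * ib) / 2 := by positivity
  have hη2 : 0 < η * (ia ^ 2 * ib) := by positivity
  obtain ⟨ra, hra1, hra⟩ := hBK5 α β hα4 hβ4 (η * (ia ^ 2 * ib) / 2) R0 hη1
  obtain ⟨rb, hrb1, hrb⟩ := hBK5 α β hα4 hβ4 (η * (ia ^ 2 * ib) / 2) 1 hη1
  obtain ⟨rc, hrc1, hrc⟩ := hBK5 α (fun x => x * β x) hα4 hβ4' (η * (ia ^ 2 * ib)) 1 hη2
  rw [hib] at hra hrb
  simp only [hix] at hrc
  refine ⟨ia ^ 2 * ib + η * (ia ^ 2 * ib) / 2, max (max ra rb) (max rc (100 * R0)), by positivity,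
    le_trans hra1 (le_trans (le_max_left _ _) (le_max_left _ _)), ?_⟩
  intro r hr
  have h1 : ra ≤ r := le_trans (le_trans (le_max_left _ _) (le_max_left _ _)) hr
  have h2 : rb ≤ r := le_trans (le_trans (le_max_right _ _) (le_max_left _ _)) hr
  have h3 : rc ≤ r := le_trans (le_trans (le_max_left _ _) (le_max_right _ _)) hr
  have h4 : 100 * R0 ≤ r := le_trans (le_trans (le_max_right _ _) (le_max_right _ _)) hr
  have hr0 : 0 < r := lt_of_lt_of_le (by norm_num) (le_trans hra1 h1)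
  have hnn : ∀ u : ℍ → ℂ, 0 ≤ nn F u := fun u => integral_nonneg fun z => sq_nonneg _
  constructor
  · intro u hu
    have hTst : Tst (pk r (pc β α)) := hFL0.2.1 (1 / 4) r _ hT
    have hcont : Continuous (pk r (pc β α)) :=
      ((QU.A_CA1 ℂ).1 _).1 ((QU.A_CA1 ℂ).2.1 _ 0 ∞ (by exact_mod_cast (bot_le : (0 : ℕ∞) ≤ ⊤)) hTst.1)
    obtain ⟨q, hq0, hq1, hq2⟩ := hNR5 Γ F (pk r (pc β α)) hΓ hFd hcont hTst.2
    refine le_trans (hq1 u hu) (mul_le_mul_of_nonneg_right ?_ (hnn u))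
    rcases hq2 with h | ⟨lam, v, hv, hvpos, hvq⟩
    · rw [h]
      positivity
    · have hvq' : qn F (pc β α) r v = q * nn F v := hvq
      by_cases hs : ∃ s : ℝ, 0 ≤ s ∧ lam = 1 / 4 + s ^ 2 ∧ |s - r| ≤ R0
      · obtain ⟨s, -, hlam, hsr⟩ := hs
        rw [hlam] at hv
        have h5 := (hGR2 Γ F hΓ hFd s v hv).2 (pc β α) r hT
        rw [hvq', hcc, mul_comm] at h5
        have h6 : q = bk (pr β α) r s := mul_left_cancel₀ (ne_of_gt hvpos) h5
        rw [h6]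
        apply NM2_le _ _ _ hr0
        have h7 := (abs_le.1 (hra r s h1 hsr)).2
        have h8 : ‖hF α (s - r)‖ ^ 2 ≤ ia ^ 2 :=
          pow_le_pow_left₀ (norm_nonneg _) (hA1 (s - r)) 2
        have h9 : ‖hF α (s - r)‖ ^ 2 * ib ≤ ia ^ 2 * ib := mul_le_mul_of_nonneg_right h8 hβi.le
        linarith
      · have h5 := hEF Γ F r R0 lam v hΓ hFd hR1 h4 hv (by
          intro s hs0 hs1
          by_contra h6
          exact hs ⟨s, hs0, hs1, not_lt.1 h6⟩)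
        rw [hvq'] at h5
        have h6 : q ≤ K / (R0 ^ 2 * r) := le_of_mul_le_mul_right h5 hvpos
        refine le_trans h6 ?_
        rw [← div_div]
        apply div_le_div_of_nonneg_right _ hr0.le
        linarith
  · intro s φ hs hφ
    have hG := (hGR2 Γ F hΓ hFd s φ hφ).2
    constructor
    · rw [hG (pc β α) r hT, hcc, mul_comm (nn F φ)]
      apply mul_le_mul_of_nonneg_right _ (hnn φ)
      have h5 := (abs_le.1 (hrb r s h2 hs)).1
      have h6 : ((1 - w ^ 2) * ia) ^ 2 ≤ ‖hF α (s - r)‖ ^ 2 := by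
        apply pow_le_pow_left₀ _ (hA2 (s - r) hs) 2
        have : 0 ≤ 1 - w ^ 2 := by nlinarith
        positivity
      have h7 : ((1 - w ^ 2) * ia) ^ 2 * ib ≤ ‖hF α (s - r)‖ ^ 2 * ib :=
        mul_le_mul_of_nonneg_right h6 hβi.le
      have h8 : (1 - 2 * w ^ 2 - η) * (ia ^ 2 * ib + η * (ia ^ 2 * ib) / 2) ≤
          r * bk (pr β α) r s := by
        have h9 : ((1 - w ^ 2) * ia) ^ 2 * ib = (1 - 2 * w ^ 2) * (ia ^ 2 * ib) +
            w ^ 4 * (ia ^ 2 * ib) := by ring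
        have h10 : 0 ≤ w ^ 4 * (ia ^ 2 * ib) := by positivity
        have h11 : (1 - 2 * w ^ 2 - η) * (ia ^ 2 * ib + η * (ia ^ 2 * ib) / 2) =
            (1 - 2 * w ^ 2) * (ia ^ 2 * ib) - η * (ia ^ 2 * ib) / 2 -
              w ^ 2 * (η * (ia ^ 2 * ib)) - η * (η * (ia ^ 2 * ib)) / 2 := by ring
        have h12 : 0 ≤ w ^ 2 * (η * (ia ^ 2 * ib)) := by positivity
        have h13 : 0 ≤ η * (η * (ia ^ 2 * ib)) / 2 := by positivity
        linarith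
      rw [← mul_div_assoc]
      rw [div_le_iff₀ hr0]
      linarith
    · rw [hxm, hG _ r hT', hcc', mul_comm (nn F φ)]
      apply mul_le_mul_of_nonneg_right _ (hnn φ)
      rw [← mul_div_assoc]
      apply NM2_le _ _ _ hr0
      have h5 := (abs_le.1 (hrc r s h3 hs)).2
      have h8 : ‖hF α (s - r)‖ ^ 2 ≤ ia ^ 2 :=
        pow_le_pow_left₀ (norm_nonneg _) (hA1 (s - r)) 2
      have hix0 : 0 ≤ ix := by
        rw [← hix]
        exact integral_nonneg fun x => sq_nonneg _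
      have h9 : ‖hF α (s - r)‖ ^ 2 * ix ≤ ia ^ 2 * (w ^ 2 * ib) :=
        mul_le_mul h8 hsq hix0 (sq_nonneg _)
      have h10 : (w ^ 2 + η) * (ia ^ 2 * ib + η * (ia ^ 2 * ib) / 2) =
          ia ^ 2 * (w ^ 2 * ib) + η * (ia ^ 2 * ib) + w ^ 2 * (η * (ia ^ 2 * ib) / 2) +
            η * (η * (ia ^ 2 * ib) / 2) := by ring
      have h11 : 0 ≤ w ^ 2 * (η * (ia ^ 2 * ib) / 2) := by positivity
      have h12 : 0 ≤ η * (η * (ia ^ 2 * ib) / 2) := by positivity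
      linarith

end Pool.Agent.RS
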