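import Pool.Agent.helper29.RS.SpecK
import Pool.Agent.helper62.QU.All

/-!
# Row NRL of project RS
-/

set_option autoImplicit false

open scoped MatrixGroups ContDiff Topology UpperHalfPlane ComplexConjugate
open UpperHalfPlane MeasureTheory Filter Set

namespace Pool.Agent.RS

theorem NRL_open : IsOpen {w : ℂ | 0 < w.im} := isOpen_lt continuous_const Complex.continuous_im

theorem NRL_mem (z : ℍ) : {w : ℂ | 0 < w.im} ∈ 𝓝 (z : ℂ) := NRL_open.mem_nhds z.im_pos

theorem NRL_diff (v : ℍ → ℂ) (hv : QU.CD 2 v) (w : ℂ) (hw : 0 < w.im) :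
    DifferentiableAt ℝ (QU.onC v) w := by
  have h : ContDiffAt ℝ 2 (QU.onC v) w := hv.contDiffAt (NRL_open.mem_nhds hw)
  exact h.differentiableAt (by norm_num)

theorem NRL_diff2 (v : ℍ → ℂ) (hv : QU.CD 2 v) (w : ℂ) (hw : 0 < w.im) :
    DifferentiableAt ℝ (fderiv ℝ (QU.onC v)) w := by
  have h : ContDiffAt ℝ 2 (QU.onC v) w := hv.contDiffAt (NRL_open.mem_nhds hw)
  have h2 : ContDiffAt ℝ 1 (fderiv ℝ (QU.onC v)) w := h.fderiv_right (by norm_num)
  exact h2.differentiableAt (by norm_num)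

theorem NRL_add (v u : ℍ → ℂ) (hv : QU.CD 2 v) (hu : QU.CD 2 u) (z : ℍ) :
    QU.lap (v + u) z = QU.lap v z + QU.lap u z := by
  have e1 : fderiv ℝ (QU.onC (v + u)) =ᶠ[𝓝 (z : ℂ)] fun w => fderiv ℝ (QU.onC v) w + fderiv ℝ (QU.onC u) w := by
    filter_upwards [NRL_mem z] with w hw
    have : QU.onC (v + u) = QU.onC v + QU.onC u := rfl
    rw [this, fderiv_add (NRL_diff v hv w hw) (NRL_diff u hu w hw)]
  have e2 : fderiv ℝ (fderiv ℝ (QU.onC (v + u))) (z : ℂ) =
      fderiv ℝ (fderiv ℝ (QU.onC v)) z + fderiv ℝ (fderiv ℝ (QU.onC u)) z := by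
    rw [e1.fderiv_eq]
    exact fderiv_fun_add (NRL_diff2 v hv z z.im_pos) (NRL_diff2 u hu z z.im_pos)
  unfold QU.lap
  rw [e2]
  simp only [_root_.add_apply, smul_add]
  ring

theorem NRL_smul (c : ℂ) (v : ℍ → ℂ) (hv : QU.CD 2 v) (z : ℍ) :
    QU.lap (c • v) z = c * QU.lap v z := by
  have e1 : fderiv ℝ (QU.onC (c • v)) =ᶠ[𝓝 (z : ℂ)] fun w => c • fderiv ℝ (QU.onC v) w := by
    filter_upwards [NRL_mem z] with w hw
    have : QU.onC (c • v) = c • QU.onC v := rfl
    rw [this, fderiv_const_smul (NRL_diff v hv w hw)]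
  have e2 : fderiv ℝ (fderiv ℝ (QU.onC (c • v))) (z : ℂ) =
      c • fderiv ℝ (fderiv ℝ (QU.onC v)) z := by
    rw [e1.fderiv_eq]
    exact fderiv_fun_const_smul (NRL_diff2 v hv z z.im_pos) c
  unfold QU.lap
  rw [e2]
  simp only [_root_.smul_apply, smul_eq_mul, Complex.real_smul]
  ring

theorem NRL_pos (Γ : Subgroup SL(2, ℝ)) (F : Set ℍ) (hΓ : QU.SurfaceGroup Γ) (hF : QU.NiceDom Γ F)
    (v : ℍ → ℂ) (hv : InvC Γ v) (hne : v ≠ 0) : 0 < nn F v := by
  have h0 : 0 ≤ nn F v := integral_nonneg fun z => sq_nonneg _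
  rcases h0.lt_or_eq with h | h
  · exact h
  · exfalso
    apply hne
    have h1 := (QU.A_BDD Γ F (fun z => ‖v z‖) hΓ hF ⟨hv.1.norm, fun γ z => by
      simp only []
      rw [hv.2 γ z]⟩).2.2.2 h.symm
    funext z
    exact norm_eq_zero.1 (h1 z)

theorem NRL (hNR4 : NR4_stmt) : NRL_stmt := by
  intro Γ F E hΓ hF hfin hE hinv hconv
  obtain ⟨h1, h2⟩ := hNR4 Γ F E hΓ hF hfin hinv hconv
  let L : E →ₗ[ℂ] E :=
    { toFun := fun v => ⟨QU.lap (v : ℍ → ℂ), (h1 v v.2).2⟩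
      map_add' := fun v u => by
        apply Subtype.ext
        funext z
        exact NRL_add v u (h1 v v.2).1 (h1 u u.2).1 z
      map_smul' := fun c v => by
        apply Subtype.ext
        funext z
        exact NRL_smul c v (h1 v v.2).1 z }
  have : Nontrivial E := Submodule.nontrivial_iff_ne_bot.2 hE
  obtain ⟨μ, hμ⟩ := Module.End.exists_eigenvalue L
  obtain ⟨v, hv⟩ := hμ.exists_hasEigenvector
  have hvne : (v : ℍ → ℂ) ≠ 0 := by
    intro h
    exact hv.2 (Subtype.ext h)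
  have hlap : ∀ z, QU.lap (v : ℍ → ℂ) z = μ * (v : ℍ → ℂ) z := by
    intro z
    have h3 : L v = μ • v := hv.apply_eq_smul
    have h4 := congrArg (fun u : E => (u : ℍ → ℂ) z) h3
    exact h4
  have hpos := NRL_pos Γ F hΓ hF v (hinv v v.2) hvne
  have hsym := h2 v v.2 v v.2
  have e1 : ∫ z in F, conj (QU.lap (v : ℍ → ℂ) z) * (v : ℍ → ℂ) z = conj μ * ((nn F v : ℝ) : ℂ) := by
    unfold nn
    rw [← integral_complex_ofReal, ← integral_const_mul]
    apply integral_congr_ae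
    refine Eventually.of_forall fun z => ?_
    simp only []
    rw [hlap z, map_mul, mul_assoc]
    congr 1
    rw [mul_comm, Complex.mul_conj, Complex.normSq_eq_norm_sq]
  have e2 : ∫ z in F, conj ((v : ℍ → ℂ) z) * QU.lap (v : ℍ → ℂ) z = μ * ((nn F v : ℝ) : ℂ) := by
    unfold nn
    rw [← integral_complex_ofReal, ← integral_const_mul]
    apply integral_congr_ae
    refine Eventually.of_forall fun z => ?_
    simp only []
    rw [hlap z, mul_left_comm]
    congr 1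
    rw [mul_comm, Complex.mul_conj, Complex.normSq_eq_norm_sq]
  rw [e1, e2] at hsym
  have hreal : conj μ = μ := by
    have hne : ((nn F v : ℝ) : ℂ) ≠ 0 := by exact_mod_cast ne_of_gt hpos
    exact mul_right_cancel₀ hne hsym
  obtain ⟨lam, hlam⟩ := Complex.conj_eq_iff_real.1 hreal
  refine ⟨v, lam, v.2, hpos, (h1 v v.2).1, (hinv v v.2).2, fun z => ?_⟩
  rw [hlap z, hlam]

end Pool.Agent.RS
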