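import Pool.Agent.helper29.RS.SpecK

/-!
# Row VDC of project RS: van der Corput
-/

set_option autoImplicit false

open scoped MatrixGroups ContDiff Topology UpperHalfPlane ComplexConjugate
open UpperHalfPlane MeasureTheory Filter Set

namespace Pool.Agent.RS

/-- first derivative bounded below -/
theorem VDC_one (θ : ℝ → ℝ) (hθ : ContDiff ℝ 2 θ) (p q κ : ℝ) (hpq : p ≤ q) (hκ : 0 < κ)
    (h2 : ∀ x ∈ Icc p q, 0 ≤ deriv (deriv θ) x)
    (h1 : (∀ x ∈ Icc p q, κ ≤ deriv θ x) ∨ (∀ x ∈ Icc p q, deriv θ x ≤ -κ)) :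
    ‖∫ x in p..q, Complex.exp ((θ x : ℂ) * Complex.I)‖ ≤ 3 / κ := by
  have hθ1 : ContDiff ℝ 1 (deriv θ) := by
    have := hθ.iterate_deriv' 1 1
    simpa using this
  have hd : Differentiable ℝ θ := hθ.differentiable (by norm_num)
  have hd1 : Differentiable ℝ (deriv θ) := hθ1.differentiable (by norm_num)
  have hc2 : Continuous (deriv (deriv θ)) := hθ1.continuous_deriv (by norm_num)
  have hne : ∀ x ∈ Icc p q, deriv θ x ≠ 0 := by
    intro x hx
    rcases h1 with h | h
    · exact ne_of_gt (lt_of_lt_of_le hκ (h x hx))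
    · exact ne_of_lt (lt_of_le_of_lt (h x hx) (by linarith))
  have habs : ∀ x ∈ Icc p q, |1 / deriv θ x| ≤ 1 / κ := by
    intro x hx
    rw [abs_div, abs_one]
    apply one_div_le_one_div_of_le hκ
    rcases h1 with h | h
    · exact le_trans (h x hx) (le_abs_self _)
    · have h3 := neg_le_abs (deriv θ x)
      have h4 := h x hx
      linarith
  -- the functions
  have hu : ∀ x ∈ Icc p q, HasDerivAt (fun y => 1 / deriv θ y)
      (-(deriv (deriv θ) x) / (deriv θ x) ^ 2) x := by
    intro x hx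
    have h := (hd1 x).hasDerivAt.inv (hne x hx)
    simp only [one_div]
    exact h
  have hcu : ContinuousOn (fun x => -(deriv (deriv θ) x) / (deriv θ x) ^ 2) (Icc p q) := by
    apply ContinuousOn.div
    · exact hc2.neg.continuousOn
    · exact (hd1.continuous.pow 2).continuousOn
    · intro x hx
      exact pow_ne_zero 2 (hne x hx)
  have hv : ∀ x, HasDerivAt (fun y : ℝ => Complex.exp ((θ y : ℂ) * Complex.I))
      (Complex.exp ((θ x : ℂ) * Complex.I) * (((deriv θ x : ℝ) : ℂ) * Complex.I)) x := by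
    intro x
    have h := ((hd x).hasDerivAt.ofReal_comp.mul_const Complex.I).cexp
    exact h
  have hcv : Continuous (fun x : ℝ => Complex.exp ((θ x : ℂ) * Complex.I)) := by
    have := hd.continuous
    fun_prop
  have hcv' : Continuous (fun x : ℝ => Complex.exp ((θ x : ℂ) * Complex.I) *
      (((deriv θ x : ℝ) : ℂ) * Complex.I)) := by
    have := hd.continuous
    have := hd1.continuous
    fun_prop
  have huI : uIcc p q = Icc p q := uIcc_of_le hpq
  have hparts := intervalIntegral.integral_mul_deriv_eq_deriv_mul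
    (u := fun x => ((1 / deriv θ x : ℝ) : ℂ)) (v := fun x : ℝ => Complex.exp ((θ x : ℂ) * Complex.I))
    (u' := fun x => ((-(deriv (deriv θ) x) / (deriv θ x) ^ 2 : ℝ) : ℂ))
    (v' := fun x => Complex.exp ((θ x : ℂ) * Complex.I) * (((deriv θ x : ℝ) : ℂ) * Complex.I))
    (a := p) (b := q)
    (fun x hx => (hu x (huI ▸ hx)).ofReal_comp) (fun x _ => hv x)
    (by
      apply ContinuousOn.intervalIntegrable
      rw [huI]
      exact Complex.continuous_ofReal.comp_continuousOn hcu)
    (hcv'.intervalIntegrable _ _)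
  have hleft : ∫ x in p..q, ((1 / deriv θ x : ℝ) : ℂ) *
      (Complex.exp ((θ x : ℂ) * Complex.I) * (((deriv θ x : ℝ) : ℂ) * Complex.I)) =
      (∫ x in p..q, Complex.exp ((θ x : ℂ) * Complex.I)) * Complex.I := by
    rw [← intervalIntegral.integral_mul_const]
    apply intervalIntegral.integral_congr
    intro x hx
    have hx' := hne x (huI ▸ hx)
    have hx2 : ((deriv θ x : ℝ) : ℂ) ≠ 0 := by exact_mod_cast hx'
    simp only []
    push_cast
    field_simp
  rw [hleft] at hparts
  have hftc : ∫ x in p..q, (-(deriv (deriv θ) x) / (deriv θ x) ^ 2) =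
      1 / deriv θ q - 1 / deriv θ p := by
    apply intervalIntegral.integral_eq_sub_of_hasDerivAt
    · intro x hx
      exact hu x (huI ▸ hx)
    · apply ContinuousOn.intervalIntegrable
      rw [huI]
      exact hcu
  have hnorm : ‖∫ x in p..q, ((-(deriv (deriv θ) x) / (deriv θ x) ^ 2 : ℝ) : ℂ) *
      Complex.exp ((θ x : ℂ) * Complex.I)‖ ≤ 1 / deriv θ p - 1 / deriv θ q := by
    have h3 : ∫ x in p..q, -(-(deriv (deriv θ) x) / (deriv θ x) ^ 2) =
        1 / deriv θ p - 1 / deriv θ q := by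
      rw [intervalIntegral.integral_neg, hftc]
      ring
    rw [← h3]
    apply intervalIntegral.norm_integral_le_of_norm_le hpq
    · refine Eventually.of_forall fun x hx => ?_
      have hx' : x ∈ Icc p q := Ioc_subset_Icc_self hx
      rw [norm_mul, Complex.norm_exp_ofReal_mul_I, mul_one, Complex.norm_real, Real.norm_eq_abs,
        abs_of_nonpos]
      rw [neg_div]
      have := div_nonneg (h2 x hx') (sq_nonneg (deriv θ x))
      linarith
    · apply ContinuousOn.intervalIntegrable
      rw [huI]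
      exact hcu.neg
  have hp : p ∈ Icc p q := ⟨le_refl _, hpq⟩
  have hq : q ∈ Icc p q := ⟨hpq, le_refl _⟩
  have hdiff : 1 / deriv θ p - 1 / deriv θ q ≤ 1 / κ := by
    rcases h1 with h | h
    · have h4 : 0 < 1 / deriv θ q := by
        have := lt_of_lt_of_le hκ (h q hq)
        positivity
      have h5 := le_trans (le_abs_self _) (habs p hp)
      linarith
    · have h4 : 1 / deriv θ p ≤ 0 := by
        apply div_nonpos_of_nonneg_of_nonpos zero_le_one
        linarith [h p hp]
      have h5 := le_trans (neg_le_abs _) (habs q hq)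
      linarith
  have hI : ‖(∫ x in p..q, Complex.exp ((θ x : ℂ) * Complex.I)) * Complex.I‖ =
      ‖∫ x in p..q, Complex.exp ((θ x : ℂ) * Complex.I)‖ := by
    rw [norm_mul, Complex.norm_I, mul_one]
  rw [← hI, hparts]
  have hbq : ‖((1 / deriv θ q : ℝ) : ℂ) * Complex.exp ((θ q : ℂ) * Complex.I)‖ ≤ 1 / κ := by
    rw [norm_mul, Complex.norm_exp_ofReal_mul_I, mul_one, Complex.norm_real, Real.norm_eq_abs]
    exact habs q hq
  have hbp : ‖((1 / deriv θ p : ℝ) : ℂ) * Complex.exp ((θ p : ℂ) * Complex.I)‖ ≤ 1 / κ := by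
    rw [norm_mul, Complex.norm_exp_ofReal_mul_I, mul_one, Complex.norm_real, Real.norm_eq_abs]
    exact habs p hp
  have h6 := norm_sub_le (((1 / deriv θ q : ℝ) : ℂ) * Complex.exp ((θ q : ℂ) * Complex.I) -
    ((1 / deriv θ p : ℝ) : ℂ) * Complex.exp ((θ p : ℂ) * Complex.I))
    (∫ x in p..q, ((-(deriv (deriv θ) x) / (deriv θ x) ^ 2 : ℝ) : ℂ) *
      Complex.exp ((θ x : ℂ) * Complex.I))
  have h7 := norm_sub_le (((1 / deriv θ q : ℝ) : ℂ) * Complex.exp ((θ q : ℂ) * Complex.I))
    (((1 / deriv θ p : ℝ) : ℂ) * Complex.exp ((θ p : ℂ) * Complex.I))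
  have h8 : 3 / κ = 1 / κ + 1 / κ + 1 / κ := by ring
  rw [h8]
  linarith

/-- a splitting point for a monotone function -/
theorem VDC_split (g : ℝ → ℝ) (p q c : ℝ) (hpq : p ≤ q) (hg : ContinuousOn g (Icc p q))
    (hm : MonotoneOn g (Icc p q)) : ∃ s ∈ Icc p q, (s = p ∨ ∀ x ∈ Icc p s, g x ≤ c) ∧
      (s = q ∨ ∀ x ∈ Icc s q, c ≤ g x) := by
  have hp : p ∈ Icc p q := ⟨le_refl _, hpq⟩
  have hq : q ∈ Icc p q := ⟨hpq, le_refl _⟩
  rcases le_total c (g p) with h | h
  · exact ⟨p, hp, Or.inl rfl, Or.inr fun x hx => le_trans h (hm hp hx hx.1)⟩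
  · rcases le_total (g q) c with h' | h'
    · exact ⟨q, hq, Or.inr fun x hx => le_trans (hm hx hq hx.2) h', Or.inl rfl⟩
    · obtain ⟨s, hs, hgs⟩ := intermediate_value_Icc hpq hg ⟨h, h'⟩
      refine ⟨s, hs, Or.inr fun x hx => ?_, Or.inr fun x hx => ?_⟩
      · rw [← hgs]
        exact hm ⟨hx.1, le_trans hx.2 hs.2⟩ hs hx.2
      · rw [← hgs]
        exact hm hs ⟨le_trans hs.1 hx.1, hx.2⟩ hx.1

/-- second derivative bounded below -/
theorem VDC_two (θ : ℝ → ℝ) (hθ : ContDiff ℝ 2 θ) (p q m : ℝ) (hpq : p ≤ q) (hm : 0 < m)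
    (h2 : ∀ x ∈ Icc p q, m ≤ deriv (deriv θ) x) :
    ‖∫ x in p..q, Complex.exp ((θ x : ℂ) * Complex.I)‖ ≤ 8 / Real.sqrt m := by
  have hθ1 : ContDiff ℝ 1 (deriv θ) := by
    have := hθ.iterate_deriv' 1 1
    simpa using this
  have hd : Differentiable ℝ θ := hθ.differentiable (by norm_num)
  have hd1 : Differentiable ℝ (deriv θ) := hθ1.differentiable (by norm_num)
  have hκ : 0 < Real.sqrt m := Real.sqrt_pos.2 hm
  set κ := Real.sqrt m with hκdef
  have hκ2 : κ * κ = m := Real.mul_self_sqrt hm.le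
  have hmono : ∀ x ∈ Icc p q, ∀ y ∈ Icc p q, x ≤ y → m * (y - x) ≤ deriv θ y - deriv θ x := by
    intro x hx y hy hxy
    apply Convex.mul_sub_le_image_sub_of_le_deriv (convex_Icc p q) hd1.continuous.continuousOn
      hd1.differentiableOn _ x hx y hy hxy
    intro z hz
    rw [interior_Icc] at hz
    exact h2 z (Ioo_subset_Icc_self hz)
  have hmon : MonotoneOn (deriv θ) (Icc p q) := by
    intro x hx y hy hxy
    have := hmono x hx y hy hxy
    have h3 : 0 ≤ m * (y - x) := mul_nonneg hm.le (by linarith)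
    linarith
  obtain ⟨s1, hs1, ha1, hb1⟩ := VDC_split (deriv θ) p q (-κ) hpq hd1.continuous.continuousOn hmon
  have hsub : Icc s1 q ⊆ Icc p q := Icc_subset_Icc_left hs1.1
  obtain ⟨s2, hs2, ha2, hb2⟩ := VDC_split (deriv θ) s1 q κ hs1.2 hd1.continuous.continuousOn
    (hmon.mono hsub)
  have hcv : Continuous (fun x : ℝ => Complex.exp ((θ x : ℂ) * Complex.I)) := by
    have := hd.continuous
    fun_prop
  have e1 : ‖∫ x in p..s1, Complex.exp ((θ x : ℂ) * Complex.I)‖ ≤ 3 / κ := by
    rcases ha1 with h | h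
    · rw [h]
      simp
      positivity
    · exact VDC_one θ hθ p s1 κ hs1.1 hκ
        (fun x hx => le_trans hm.le (h2 x ⟨hx.1, le_trans hx.2 hs1.2⟩)) (Or.inr h)
  have e3 : ‖∫ x in s2..q, Complex.exp ((θ x : ℂ) * Complex.I)‖ ≤ 3 / κ := by
    rcases hb2 with h | h
    · rw [h]
      simp
      positivity
    · exact VDC_one θ hθ s2 q κ hs2.2 hκ
        (fun x hx => le_trans hm.le (h2 x ⟨le_trans (le_trans hs1.1 hs2.1) hx.1, hx.2⟩)) (Or.inl h)
  have e2 : ‖∫ x in s1..s2, Complex.exp ((θ x : ℂ) * Complex.I)‖ ≤ 2 / κ := by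
    have hlen : s2 - s1 ≤ 2 / κ := by
      rcases hb1 with h | h
      · have : s2 = s1 := le_antisymm (by rw [h]; exact hs2.2) hs2.1
        rw [this]
        simp
        positivity
      · rcases ha2 with h' | h'
        · rw [h']
          simp
          positivity
        · have h3 := h s1 ⟨le_refl _, hs1.2⟩
          have h4 := h' s2 ⟨hs2.1, le_refl _⟩
          have h5 := hmono s1 hs1 s2 (hsub hs2) hs2.1
          rw [le_div_iff₀ hκ]
          have h6 : κ * ((s2 - s1) * κ) ≤ κ * 2 := by nlinarith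
          exact le_of_mul_le_mul_left h6 hκ
    have h6 := intervalIntegral.norm_integral_le_of_norm_le_const
      (f := fun x : ℝ => Complex.exp ((θ x : ℂ) * Complex.I)) (a := s1) (b := s2) (C := 1)
      (fun x _ => by rw [Complex.norm_exp_ofReal_mul_I])
    rw [abs_of_nonneg (by linarith [hs2.1]), one_mul] at h6
    linarith
  have hsum : ∫ x in p..q, Complex.exp ((θ x : ℂ) * Complex.I) =
      (∫ x in p..s1, Complex.exp ((θ x : ℂ) * Complex.I)) +
      (∫ x in s1..s2, Complex.exp ((θ x : ℂ) * Complex.I)) +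
      ∫ x in s2..q, Complex.exp ((θ x : ℂ) * Complex.I) := by
    rw [intervalIntegral.integral_add_adjacent_intervals (hcv.intervalIntegrable _ _)
      (hcv.intervalIntegrable _ _), intervalIntegral.integral_add_adjacent_intervals
      (hcv.intervalIntegrable _ _) (hcv.intervalIntegrable _ _)]
  rw [hsum]
  have h7 := norm_add₃_le (a := ∫ x in p..s1, Complex.exp ((θ x : ℂ) * Complex.I))
    (b := ∫ x in s1..s2, Complex.exp ((θ x : ℂ) * Complex.I))
    (c := ∫ x in s2..q, Complex.exp ((θ x : ℂ) * Complex.I))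
  have h8 : 8 / κ = 3 / κ + 2 / κ + 3 / κ := by ring
  rw [h8]
  linarith

/-- the same for a second derivative of any sign -/
theorem VDC_three (θ : ℝ → ℝ) (hθ : ContDiff ℝ 2 θ) (p q m : ℝ) (hpq : p ≤ q) (hm : 0 < m)
    (h2 : (∀ x ∈ Icc p q, m ≤ deriv (deriv θ) x) ∨ (∀ x ∈ Icc p q, deriv (deriv θ) x ≤ -m)) :
    ‖∫ x in p..q, Complex.exp ((θ x : ℂ) * Complex.I)‖ ≤ 8 / Real.sqrt m := by
  rcases h2 with h | h
  · exact VDC_two θ hθ p q m hpq hm h
  · have hd2 : deriv (deriv fun x => -θ x) = fun x => -deriv (deriv θ) x := by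
      have e1 : (deriv fun x => -θ x) = fun x => -deriv θ x := by
        funext x
        exact deriv.fun_neg
      rw [e1]
      funext x
      exact deriv.fun_neg
    have h3 := VDC_two (fun x => -θ x) hθ.neg p q m hpq hm (by
      intro x hx
      rw [hd2]
      have := h x hx
      simp only []
      linarith)
    have h4 : ∫ x in p..q, Complex.exp (((-θ x : ℝ) : ℂ) * Complex.I) =
        (starRingEnd ℂ) (∫ x in p..q, Complex.exp ((θ x : ℂ) * Complex.I)) := by
      rw [intervalIntegral.integral_of_le hpq, intervalIntegral.integral_of_le hpq, ← integral_conj]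
      apply integral_congr_ae
      refine Eventually.of_forall fun x => ?_
      simp only []
      rw [← Complex.exp_conj]
      simp
    rw [h4, RCLike.norm_conj] at h3
    exact h3

theorem VDC : VDC_stmt := by
  intro a θ A B m a1 hAB ha hθ haB hm h2 h1
  have hd : Differentiable ℝ θ := hθ.differentiable (by norm_num)
  have hcv : Continuous (fun x : ℝ => Complex.exp ((θ x : ℂ) * Complex.I)) := by
    have := hd.continuous
    fun_prop
  have hda : Differentiable ℝ a := ha.differentiable (by norm_num)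
  have hca : Continuous (deriv a) := ha.continuous_deriv (by norm_num)
  have hE : ∀ x, HasDerivAt (fun y => ∫ t in A..y, Complex.exp ((θ t : ℂ) * Complex.I))
      (Complex.exp ((θ x : ℂ) * Complex.I)) x := fun x =>
    intervalIntegral.integral_hasDerivAt_right (hcv.intervalIntegrable _ _)
      (hcv.stronglyMeasurableAtFilter _ _) hcv.continuousAt
  have hparts := intervalIntegral.integral_mul_deriv_eq_deriv_mul
    (u := a) (v := fun y => ∫ t in A..y, Complex.exp ((θ t : ℂ) * Complex.I))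
    (u' := deriv a) (v' := fun x => Complex.exp ((θ x : ℂ) * Complex.I)) (a := A) (b := B)
    (fun x _ => (hda x).hasDerivAt) (fun x _ => hE x)
    (hca.intervalIntegrable _ _) (hcv.intervalIntegrable _ _)
  rw [hparts, haB, zero_mul, intervalIntegral.integral_same, mul_zero, sub_zero, zero_sub, norm_neg]
  have ha1 : 0 ≤ a1 := le_trans (norm_nonneg _) (h1 A ⟨le_refl _, hAB⟩)
  have h3 := intervalIntegral.norm_integral_le_of_norm_le_const
    (f := fun x => deriv a x * ∫ t in A..x, Complex.exp ((θ t : ℂ) * Complex.I)) (a := A) (b := B)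
    (C := a1 * (8 / Real.sqrt m)) (by
      intro x hx
      rw [uIoc_of_le hAB] at hx
      rw [norm_mul]
      apply mul_le_mul (h1 x (Ioc_subset_Icc_self hx)) _ (norm_nonneg _) ha1
      apply VDC_three θ hθ A x m hx.1.le hm
      rcases h2 with h | h
      · exact Or.inl fun y hy => h y ⟨hy.1, le_trans hy.2 hx.2⟩
      · exact Or.inr fun y hy => h y ⟨hy.1, le_trans hy.2 hx.2⟩)
  rw [abs_of_nonneg (by linarith)] at h3
  refine le_trans h3 (le_of_eq ?_)
  ring

end Pool.Agent.RS
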